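import Pool.Agent.H599R3.SV.Va

/-!
# Finitely presented diagram groups without idempotents have finite cohomological dimension

Diagram groups (definitions in `H540DG`):

* `Pres A` is a semigroup presentation over the alphabet `A`: a set of relations `(u, v)` with
  `u`, `v` nonempty words.
* `OE P` are the oriented edges `(a, r, s, c)` of the Squier complex: they lead from `a u c` to
  `a v c` if `s = true`, and from `a v c` to `a u c` if `s = false`, where `r = (u, v)`.
* `IsPath w L w'`: the list `L` of oriented edges is an edge path from `w` to `w'`.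
* `Elem P`: elementary homotopies of edge paths, that is deletion of a backtrack, and replacing
  one half of the boundary of a square by the other half.
* `DiagramGroup P w`: closed edge paths at `w` modulo elementary homotopies, with concatenation
  (the fundamental group of the Squier complex at `w`).
-/

set_option autoImplicit false

namespace Pool.Agent.Results.MP_cff99f_al.FinDim

open H540DG Pool.Agent.H599R3.SV

/-- the words `u` and `v` are equal modulo the presentation `P` -/
def Eqv {A : Type} (P : Pres A) (u v : List A) : Prop := ∃ L : List (OE P), IsPath u L v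

/-- **Theorem.** Let `G` be a finitely presented diagram group `D(P, w)` such that there is no
nonempty word `x` with `x = x x` and `w = a x b` modulo `P`. Then there is `n` such that all
cohomology groups of `G` in degrees greater than `n` vanish. -/
theorem result {A : Type} (P : Pres A) (w : List A) {G : Type} [Group G]
    (e : G ≃* DiagramGroup P w) (hfp : Group.IsFinitelyPresented G)
    (hno : ∀ x a b : List A, x ≠ [] → Eqv P x (x ++ x) → ¬ Eqv P w (a ++ (x ++ b))) :
    ∃ n : ℕ, ∀ k : ℕ, n < k → ∀ M : Rep.{0} ℤ G, Subsingleton (groupCohomology M k) := by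
  have e' : G ≃* Dg P w := e.trans (dgEquiv P w)
  have hfp' : FinPres (Dg P w) := by
    apply FinPres.congr e'
    obtain ⟨n, φ, h1, R, h2, h3⟩ := hfp.out
    exact ⟨n, φ, h1, R, h2, h3⟩
  obtain ⟨N, hN⟩ := bounded w hfp' (by
    intro x a b ε g hx hε hg
    obtain ⟨L, h1, -⟩ := hε
    obtain ⟨L', h2, -⟩ := hg
    exact hno x a b hx ⟨L, h1⟩ ⟨L', h2⟩)
  refine ⟨N, ?_⟩
  intro k hk M
  obtain ⟨k, rfl⟩ : ∃ k', k = k' + 1 := ⟨k - 1, by omega⟩
  have hv : Van G k := (van_of_decLE N w hN k (by omega)).congr e'.symm
  have h1 := @van_isZero G _ k hv M.V M.hV1 M.hV2 M.ρ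
  exact ModuleCat.subsingleton_of_isZero h1

end Pool.Agent.Results.MP_cff99f_al.FinDim
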